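import Mathlib

/-!
# Long gaps: the numbers
-/

set_option autoImplicit false

open Filter Real MeasureTheory ProbabilityTheory

namespace Pool.Agent.H63.CM

theorem num_gap : ∀ᶠ j : ℕ in atTop, ∀ B : Finset ℕ, (∀ m ∈ B, m < j ^ 2 ∧ ((j ^ 2 : ℕ) : ℝ) - m < (log (j ^ 2 : ℕ)) ^ 2 / 4) →
    (j : ℝ) ^ (-(2 / 3) : ℝ) ≤ ∏ m ∈ B, (1 - 1 / log m) := by
  have h1 : ∀ᶠ j : ℕ in atTop, (4 : ℝ) ≤ log j :=
    (tendsto_log_atTop.comp tendsto_natCast_atTop_atTop).eventually_ge_atTop 4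
  filter_upwards [h1, eventually_ge_atTop 4] with j hj hj4 B hB
  have hjr : (4 : ℝ) ≤ j := by exact_mod_cast hj4
  have hj0 : (0 : ℝ) < j := by linarith
  obtain ⟨y, hy⟩ : ∃ y : ℝ, y = log j := ⟨_, rfl⟩
  rw [← hy] at hj
  have hl : log ((j ^ 2 : ℕ) : ℝ) = 2 * y := by
    push_cast
    rw [Real.log_pow, hy]
    norm_num
  rw [hl] at hB
  have hexp : exp y = j := by rw [hy, Real.exp_log hj0]
  have hy2 : y ^ 2 ≤ (j : ℝ) ^ 2 / 2 := by
    have h2 := Real.quadratic_le_exp_of_nonneg (show 0 ≤ y by linarith)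
    rw [hexp] at h2
    nlinarith
  -- the size of `B`
  have hcard : (B.card : ℝ) ≤ y ^ 2 := by
    have h3 : B.card ≤ (Finset.Icc 1 ⌊y ^ 2⌋₊).card := by
      refine Finset.card_le_card_of_injOn (fun m => j ^ 2 - m) ?_ ?_
      · intro m hm
        obtain ⟨h4, h5⟩ := hB m hm
        have h6 : ((j ^ 2 - m : ℕ) : ℝ) = ((j ^ 2 : ℕ) : ℝ) - m := by
          rw [Nat.cast_sub h4.le]
        rw [Finset.mem_coe, Finset.mem_Icc]
        refine ⟨(by omega : 1 ≤ j ^ 2 - m), Nat.le_floor ?_⟩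
        show ((j ^ 2 - m : ℕ) : ℝ) ≤ y ^ 2
        rw [h6]
        nlinarith
      · intro m hm m' hm' hmm
        have h4 := (hB m hm).1
        have h5 := (hB m' hm').1
        have h6 : j ^ 2 - m = j ^ 2 - m' := hmm
        omega
    rw [Nat.card_Icc, Nat.add_sub_cancel] at h3
    calc (B.card : ℝ) ≤ (⌊y ^ 2⌋₊ : ℝ) := by exact_mod_cast h3
      _ ≤ y ^ 2 := Nat.floor_le (by positivity)
  -- one factor
  have hfac : ∀ m ∈ B, exp (-(1 / (2 * y - 2))) ≤ 1 - 1 / log m := by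
    intro m hm
    obtain ⟨h4, h5⟩ := hB m hm
    have h6 : (j : ℝ) ^ 2 / 2 ≤ m := by
      push_cast at h5
      nlinarith
    have h7 : 2 * y - 1 ≤ log m := by
      have h8 : log ((j : ℝ) ^ 2 / 2) ≤ log m := Real.log_le_log (by positivity) h6
      rw [Real.log_div (by positivity) (by norm_num), Real.log_pow, ← hy] at h8
      have h9 := Real.log_two_lt_d9
      push_cast at h8
      linarith
    have h8 : 1 / log m ≤ 1 / (2 * y - 1) := one_div_le_one_div_of_le (by linarith) h7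
    have h9 : exp (-(1 / (2 * y - 2))) ≤ 1 - 1 / (2 * y - 1) := by
      have h10 : 1 + 1 / (2 * y - 2) ≤ exp (1 / (2 * y - 2)) := by
        have := Real.add_one_le_exp (1 / (2 * y - 2))
        linarith
      have h11 : (0 : ℝ) < 1 + 1 / (2 * y - 2) := by
        have : 0 < 2 * y - 2 := by linarith
        positivity
      rw [Real.exp_neg]
      have h12 : (exp (1 / (2 * y - 2)))⁻¹ ≤ (1 + 1 / (2 * y - 2))⁻¹ := inv_anti₀ h11 h10
      refine h12.trans (le_of_eq ?_)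
      have a1 : (2 * y - 2) ≠ 0 := by linarith
      have a2 : (2 * y - 1) ≠ 0 := by linarith
      have a3 : 1 + 1 / (2 * y - 2) = (2 * y - 1) / (2 * y - 2) := by
        rw [eq_div_iff a1, add_mul, one_div_mul_cancel a1]
        ring
      rw [a3, inv_div, eq_sub_iff_add_eq, ← add_div, div_eq_one_iff_eq a2]
      ring
    linarith
  have hpos : ∀ m ∈ B, 0 ≤ exp (-(1 / (2 * y - 2))) := fun m _ => (exp_pos _).le
  have h13 := Finset.prod_le_prod hpos hfac
  rw [Finset.prod_const, ← Real.exp_nat_mul] at h13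
  refine le_trans ?_ h13
  rw [Real.rpow_def_of_pos hj0, ← hy]
  refine Real.exp_le_exp.2 ?_
  have h14 : (0 : ℝ) < 2 * y - 2 := by linarith
  have h15 : (B.card : ℝ) * (1 / (2 * y - 2)) ≤ y ^ 2 * (1 / (2 * y - 2)) :=
    mul_le_mul_of_nonneg_right hcard (by positivity)
  have h16 : y ^ 2 * (1 / (2 * y - 2)) ≤ 2 / 3 * y := by
    rw [mul_one_div, div_le_iff₀ h14]
    nlinarith
  linarith

end Pool.Agent.H63.CM
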